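import Pool.Agent.Q26.PD.LG

/-!
# Goldbach partitions into distinct primes which exceed the square root, with a common prime for several even numbers,
for all the numbers of short intervals

`s` integers are each changed by very few elements of arbitrary sets which meet every interval `[x, l x]`; then for ALL
the `s`-tuples `m` of integers of the intervals of length `log ^ R` around the new numbers which are admissible (for
`s = 1`: even) there is ONE prime `p` such that, for all `i`, `m i = p + q i` with different primes `p` and `q i` and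
`√(m i) < p < m i / 2`; moreover the number of these primes `p` in all windows is as predicted by Hardy and Littlewood.

Definitions used (in `Pool.Agent.Q26.PD.LG`): `cnt m y₁ y₂`: the number of the primes `p` in `(y₁, y₂]` such that all
`m i - p` are primes; `nu m q`: the number of different residues of `0, m_1, ..., m_s` modulo `q`; `Adm m`:
`nu m q < q` for all primes `q` (for `s = 1`: the number is even, `adm_one`); `sing m z`: the product of
`(1 - nu m q / q) / (1 - 1 / q) ^ (s + 1)` over the primes `q ≤ z`.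
-/

set_option autoImplicit false

namespace Pool.Agent.Results.MP_33f996_nt.CommonPrimesAllWindows

open Finset Pool.Agent.Q26.PD.LG

/-- `m` is the sum of the prime `p` and of a different prime, and `√m < p < m / 2`. -/
def Partition (m p : ℕ) : Prop := p.Prime ∧ (m - p).Prime ∧ p ≠ m - p ∧ m < p ^ 2 ∧ 2 * p < m

/-- If the numbers `m i` lie between `X / log X` and `X log X` and if there is no local obstruction, then there is a
common prime `p` as required; moreover the singular series converges to some `G > 0`, and the number of the primes `p`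
in all windows `(y₁, y₂]`, `y₂ ≤ X`, `y₂ < m i / 2` for all `i`, of length at least `X / log ^ A X`, such that all
`m i - p` are primes, is as predicted up to a relative error of at most `ε`. -/
def Holds {s : ℕ} (ε : ℝ) (A X : ℕ) (m : Fin s → ℕ) : Prop :=
  (∀ i, (X : ℝ) ≤ Real.log X * m i ∧ (m i : ℝ) ≤ X * Real.log X) → Adm m →
    (∃ p, ∀ i, Partition (m i) p) ∧
    ∃ G : ℝ, 0 < G ∧ Filter.Tendsto (sing m) Filter.atTop (nhds G) ∧
      ∀ y₁ y₂ : ℕ, y₂ ≤ X → (∀ i, 2 * y₂ < m i) → (X : ℝ) / Real.log X ^ A ≤ (y₂ : ℝ) - y₁ →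
        |(cnt m y₁ y₂ : ℝ) - G * (((y₂ : ℝ) - y₁) / Real.log X ^ (s + 1))| ≤
          ε * (G * (((y₂ : ℝ) - y₁) / Real.log X ^ (s + 1)))

lemma holds_of (s A : ℕ) (hs : 1 ≤ s) (ε : ℝ) : ∃ X₀ : ℕ, ∀ X : ℕ, X₀ ≤ X → ∀ m : Fin s → ℕ,
    Formula (min ε (1 / 2)) (A + 2) X m → Holds ε A X m := by
  classical
  obtain ⟨N1, h1⟩ := Pool.Agent.H373R2.T7.ev_L' 20
  obtain ⟨N2, h2⟩ := Pool.Agent.H373R2.T7.ev_log' 6 1
  refine ⟨N1 + N2 + 10, fun X hX m hF hm hadm => ?_⟩
  have hL := h1 X (by omega)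
  have hS := h2 X (by omega)
  have hX0 : (0 : ℝ) < X := by exact_mod_cast (by omega : 0 < X)
  obtain ⟨L, hLd⟩ : ∃ L, L = Real.log (X : ℝ) := ⟨_, rfl⟩
  rw [← hLd] at hL hS hm ⊢
  rw [one_mul] at hS
  have hL0 : 0 < L := by linarith
  have hL1 : 1 ≤ L := by linarith
  obtain ⟨G, hG, hlim, hwin⟩ := hF hadm
  rw [← hLd] at hwin
  have hle : (X : ℝ) / L ^ (A + 2) ≤ X / L ^ A :=
    div_le_div_of_nonneg_left hX0.le (by positivity) (pow_le_pow_right₀ hL1 (by omega))
  have hmain : ∀ y₁ y₂ : ℕ, (X : ℝ) / L ^ (A + 2) ≤ (y₂ : ℝ) - y₁ →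
      0 < G * (((y₂ : ℝ) - y₁) / L ^ (s + 1)) := by
    intro y₁ y₂ a4
    have : 0 < (X : ℝ) / L ^ (A + 2) := by positivity
    have : 0 < (y₂ : ℝ) - y₁ := by linarith
    positivity
  refine ⟨?_, G, hG, hlim, fun y₁ y₂ a1 a2 a3 => ?_⟩
  · obtain ⟨y₁, hy₁⟩ : ∃ y₁, y₁ = ⌈√(X : ℝ) * L⌉₊ := ⟨_, rfl⟩
    obtain ⟨y₂, hy₂⟩ : ∃ y₂, y₂ = ⌊(X : ℝ) / (4 * L)⌋₊ := ⟨_, rfl⟩
    have b1 : √(X : ℝ) * L ≤ y₁ := by rw [hy₁]; exact Nat.le_ceil _
    have b2 : (y₁ : ℝ) ≤ √(X : ℝ) * L + 1 := by rw [hy₁]; exact (Nat.ceil_lt_add_one (by positivity)).le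
    have b3 : (y₂ : ℝ) ≤ X / (4 * L) := by rw [hy₂]; exact Nat.floor_le (by positivity)
    have b4 : (X : ℝ) / (4 * L) - 1 ≤ y₂ := by rw [hy₂]; exact (Nat.sub_one_lt_floor _).le
    have hSS : √(X : ℝ) * √(X : ℝ) = X := Real.mul_self_sqrt hX0.le
    have hS0 : 0 < √(X : ℝ) := Real.sqrt_pos.2 hX0
    -- the length of the window
    have c0 : L ^ 2 * L ^ 4 ≤ √(X : ℝ) := by
      calc L ^ 2 * L ^ 4 = L ^ 6 := by ring
        _ ≤ _ := hS
    have c1 : √(X : ℝ) * L ≤ X / L ^ 2 := by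
      rw [le_div_iff₀ (by positivity)]
      have : L * L ^ 2 ≤ √(X : ℝ) := by
        calc L * L ^ 2 = L ^ 3 := by ring
          _ ≤ L ^ 6 := pow_le_pow_right₀ hL1 (by norm_num)
          _ ≤ _ := hS
      calc √(X : ℝ) * L * L ^ 2 = √(X : ℝ) * (L * L ^ 2) := by ring
        _ ≤ √(X : ℝ) * √(X : ℝ) := mul_le_mul_of_nonneg_left this hS0.le
        _ = X := hSS
    have c2 : 1 ≤ (X : ℝ) / L ^ 2 := by
      rw [le_div_iff₀ (by positivity), one_mul]
      have h3 : L ^ 2 ≤ √(X : ℝ) := (pow_le_pow_right₀ hL1 (by norm_num)).trans hS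
      have h4 : 1 ≤ √(X : ℝ) := (one_le_pow₀ hL1).trans h3
      calc L ^ 2 ≤ √(X : ℝ) * 1 := by rw [mul_one]; exact h3
        _ ≤ √(X : ℝ) * √(X : ℝ) := mul_le_mul_of_nonneg_left h4 hS0.le
        _ = X := hSS
    have c3 : (X : ℝ) / (4 * L) = X / L ^ 2 * (L / 4) := by field_simp
    have c4 : 5 * ((X : ℝ) / L ^ 2) ≤ X / (4 * L) := by
      rw [c3]
      have : 5 ≤ L / 4 := by linarith
      have h3 : 0 ≤ (X : ℝ) / L ^ 2 := by positivity
      nlinarith
    have c5 : (X : ℝ) / L ^ (A + 2) ≤ X / L ^ 2 :=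
      div_le_div_of_nonneg_left hX0.le (by positivity) (pow_le_pow_right₀ hL1 (by omega))
    have hlen : (X : ℝ) / L ^ (A + 2) ≤ (y₂ : ℝ) - y₁ := by linarith
    have hyX : y₂ ≤ X := by
      have h3 : (X : ℝ) / (4 * L) ≤ X := div_le_self hX0.le (by linarith)
      exact_mod_cast b3.trans h3
    have h2y : ∀ i, 2 * y₂ < m i := by
      intro i
      have h3 := (hm i).1
      have h4 : (X : ℝ) / L ≤ m i := by rw [div_le_iff₀ hL0]; linarith
      have h5 : (2 : ℝ) * (X / (4 * L)) < X / L := by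
        have h6 : (2 : ℝ) * (X / (4 * L)) = X / L / 2 := by field_simp; norm_num
        rw [h6]
        have : 0 < (X : ℝ) / L := by positivity
        linarith
      have h6 : (2 : ℝ) * y₂ < m i := by linarith
      exact_mod_cast h6
    have hw := hwin y₁ y₂ hyX (fun i => by have := h2y i; omega) hlen
    have h7 : (0 : ℝ) < cnt m y₁ y₂ := by
      have d1 := hmain y₁ y₂ hlen
      have d2 := mul_le_mul_of_nonneg_right (min_le_right ε (1 / 2)) d1.le
      rw [abs_le] at hw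
      linarith [hw.1]
    have h9 : 0 < cnt m y₁ y₂ := by exact_mod_cast h7
    unfold cnt at h9
    rw [card_pos] at h9
    obtain ⟨p, hp⟩ := h9
    rw [mem_filter, mem_Ioc] at hp
    obtain ⟨⟨p1, p2⟩, p3, p4⟩ := hp
    refine ⟨p, fun i => ⟨p3, p4 i, ?_, ?_, ?_⟩⟩
    · have := h2y i
      omega
    · have e1 : (m i : ℝ) ≤ X * L := (hm i).2
      have e2 : (X : ℝ) * L ≤ (√(X : ℝ) * L) ^ 2 := by
        calc (X : ℝ) * L = X * L * 1 := by ring
          _ ≤ X * L * L := mul_le_mul_of_nonneg_left hL1 (by positivity)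
          _ = (√(X : ℝ) * √(X : ℝ)) * L * L := by rw [hSS]
          _ = _ := by ring
      have e3 : √(X : ℝ) * L < p := by
        have : (y₁ : ℝ) < p := by exact_mod_cast p1
        linarith
      have e4 : (√(X : ℝ) * L) ^ 2 < (p : ℝ) ^ 2 := pow_lt_pow_left₀ e3 (by positivity) (by norm_num)
      have e5 : (m i : ℝ) < (p : ℝ) ^ 2 := by linarith
      exact_mod_cast e5
    · have := h2y i
      omega
  · refine (hwin y₁ y₂ a1 (fun i => by have := a2 i; omega) (hle.trans a3)).trans ?_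
    exact mul_le_mul_of_nonneg_right (min_le_left _ _) (hmain y₁ y₂ (hle.trans a3)).le

/-- For all `s ≥ 1`, `l ≥ 2`, `A` and `R` there is a constant `C` such that for all `H`, `B` and `ε > 0` there is an
`X₀` with the following property. Let `T i` (`i ≤ s`) be arbitrary sets of integers which contain an element of every
interval `[x, l x]`, `x ≥ 1` (the constants do not depend on them), let `X ≥ X₀` and `L = log X`. To arbitrary integers
`a_1, ..., a_s ≤ B X` one can add the sums of sets `S i` of at most `C (log L) ^ 2` elements of `T i` between `L ^ H` and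
`X / L ^ H`, in such a way that ALL the tuples `m` of integers with `|m i - (a i + ∑ S i)| ≤ L ^ R` for all `i` have
distinct components and satisfy `Holds`: if the `m i` lie between `X / L` and `X L` and there is no local obstruction,
then there is ONE prime `p` such that `m i` is for all `i` the sum of `p` and of a different prime, and
`√(m i) < p < m i / 2`; and the number of these `p` is as predicted in all windows. -/
theorem result (s l A R : ℕ) (hs : 1 ≤ s) (hl : 2 ≤ l) : ∃ C : ℝ, ∀ (H B : ℕ) (ε : ℝ), 0 < ε →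
    ∃ X₀ : ℕ, ∀ T : Fin s → Set ℕ, (∀ i, ∀ x : ℕ, 1 ≤ x → ∃ t ∈ T i, x ≤ t ∧ t ≤ l * x) →
      ∀ X : ℕ, X₀ ≤ X → ∀ a : Fin s → ℕ, (∀ i, a i ≤ B * X) →
      ∃ S : Fin s → Finset ℕ,
        (∀ i, ∀ x ∈ S i, x ∈ T i ∧ Real.log X ^ H ≤ x ∧ (x : ℝ) ≤ X / Real.log X ^ H) ∧
        (∀ i, ((S i).card : ℝ) ≤ C * Real.log (Real.log X) ^ 2) ∧
        ∀ m : Fin s → ℕ, (∀ i, |(m i : ℝ) - ((a i + ∑ x ∈ S i, x : ℕ) : ℝ)| ≤ Real.log X ^ R) →
          (∀ i j, i ≠ j → m i ≠ m j) ∧ Holds ε A X m := by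
  obtain ⟨C, hC⟩ := las s l 1 (A + 2) R hs hl le_rfl
  refine ⟨C, fun H B ε hε => ?_⟩
  obtain ⟨n1, h1⟩ := holds_of s A hs ε
  obtain ⟨X₀, h0⟩ := hC H B (min ε (1 / 2)) (lt_min hε (by norm_num))
  refine ⟨n1 + X₀, fun T hT X hX a ha => ?_⟩
  obtain ⟨S, g1, g2, _, g3⟩ := h0 T hT X (by omega) a ha
  exact ⟨S, g1, g2, fun m hm => ⟨(g3 m hm).1, h1 X (by omega) m (g3 m hm).2⟩⟩

end Pool.Agent.Results.MP_33f996_nt.CommonPrimesAllWindows
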