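import Pool.Agent.Q145.GB1
import Pool.Agent.TH872.An3
import Pool.Agent.H560R3.GB.Defs

/-!
# Goldbach partitions into distinct primes which exceed the square root, for almost all rearrangements of digits

Definitions used:
* in `Pool.Agent.H560R3.GB`: `C₂`: the twin prime constant `∏_{p > 2} (1 - 1 / (p - 1) ^ 2)`; `sing m`: the
  singular series `2 C₂ ∏_{p ∣ m, p > 2} (p - 1) / (p - 2)`;
* in `Pool.Agent.TH872.An`: `Spread b k η d`: the integers `d i` (`i < k`) are digits in base `b`, and no
  digit is taken at more than `(1 - η) k` of the `k` places `i`; `V b d σ`: the integer with the permuted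
  digits, thus the integer with the digit `d (σ i)` at the place `i`, in base `b`.
-/

set_option autoImplicit false

namespace Pool.Agent.Results.MP_33f996_nt.DigitPermutations

open Finset Pool.Agent.H560R3.GB Pool.Agent.TH872.An

/-- The number of the primes `p` with `x < p ≤ y` such that `m - p` is also a prime. -/
def G (m x y : ℕ) : ℕ := ((Ioc x y).filter (fun p => p.Prime ∧ (m - p).Prime)).card

/-- (1) There are different primes `p < q` with `p + q = m` and `√m < p < m / 2`. (2) For every interval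
`(x, y]`, `0 ≤ x < y < m / 2`, of length at least `m / log ^ A m`, the number of the primes `p` in `(x, y]` such
that `m - p` is also a prime is `sing m * (y - x) / log ^ 2 m`, up to a relative error of at most `ε`. -/
def Holds (ε : ℝ) (A m : ℕ) : Prop :=
  (∃ p q : ℕ, p.Prime ∧ q.Prime ∧ p ≠ q ∧ p + q = m ∧ m < p ^ 2 ∧ 2 * p < m) ∧
  ∀ x y : ℕ, 2 * y < m → (m : ℝ) / Real.log m ^ A ≤ (y : ℝ) - x →
    |(G m x y : ℝ) - sing m * ((y : ℝ) - x) / Real.log m ^ 2| ≤ ε * (sing m * ((y : ℝ) - x) / Real.log m ^ 2)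

lemma holds_of (A : ℕ) (ε : ℝ) (hε : 0 < ε) : ∃ m₀ : ℕ, ∀ m : ℕ, m₀ ≤ m → 2 ∣ m →
    Pool.Agent.W93.PG.WinP (min ε (1 / 2)) (A + 1) m → Holds ε A m := by
  obtain ⟨m₀, h0⟩ := Pool.Agent.Q145.GB1.core A ε hε
  refine ⟨m₀, fun m hm h2 hw => ?_⟩
  obtain ⟨⟨p, p1, p2, p3, p4⟩, h1⟩ := h0 m hm h2 hw
  exact ⟨⟨p, m - p, p1, p2, by omega, by omega, p3, p4⟩, fun x y hy hl => h1 x y (by omega) hl⟩

/-- Let `b ≥ 2`, `B`, `A`, `U`, `κ ≠ 0`, `η > 0` and `ε > 0` be fixed, let `k` be large, let `d` be an
arbitrary sequence of `k` digits in base `b` none of which is taken at more than `(1 - η) k` places, and let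
`c` be an arbitrary integer with `|c| ≤ B b ^ k`.

Then for all the permutations `σ` of the `k` places, up to at most `k! / k ^ U` of them, the integer
`m = c + κ v`, where `v` has the permuted digits, has the following property: if `m` is positive and even,
then the assertion of the
problem holds for `m` (there are different primes `p < q` with `p + q = m` and `√m < p < m / 2`), and the number
of these primes `p` in every interval of length at least `m / log ^ A m` is as predicted, up to a relative error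
of at most `ε`. -/
theorem result (b B A U : ℕ) (hb : 2 ≤ b) (κ : ℤ) (hκ : κ ≠ 0) (η ε : ℝ) (hη : 0 < η) (hε : 0 < ε) :
    ∃ k₀ : ℕ, ∀ k : ℕ, k₀ ≤ k → ∀ d : Fin k → ℕ, Spread b k η d → ∀ c : ℤ, |c| ≤ B * (b : ℤ) ^ k →
      (Nat.card {σ : Equiv.Perm (Fin k) // 0 < c + κ * V b d σ ∧ Even (c + κ * V b d σ) ∧
        ¬ Holds ε A (c + κ * V b d σ).toNat} : ℝ) ≤ Nat.factorial k / (k : ℝ) ^ U := by
  classical
  obtain ⟨m₀, h0⟩ := holds_of A ε hε
  obtain ⟨k₀, h⟩ := an_windows b B U (A + 1) m₀ hb κ hκ η hη (min ε (1 / 2)) (lt_min hε (by norm_num : (0 : ℝ) < 1 / 2)) (Holds ε A) h0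
  refine ⟨k₀, fun k hk d hd c hc => ?_⟩
  have h1 := h k hk d hd c hc (fun σ => 0 < c + κ * V b d σ ∧ Even (c + κ * V b d σ) ∧
    ¬ Holds ε A (c + κ * V b d σ).toNat) (fun σ hσ => hσ)
  rwa [Nat.card_eq_fintype_card, Fintype.card_subtype]

end Pool.Agent.Results.MP_33f996_nt.DigitPermutations
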