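import Pool.Agent.Q145.GB1
import Pool.Agent.Y885.WI3
import Pool.Agent.H560R3.GB.Defs

/-!
# Goldbach partitions into distinct primes which exceed the square root, up to very few elements of an arbitrary set which
meets every interval `[x, l x]`

Definitions used (in `Pool.Agent.H560R3.GB`): `C₂`: the twin prime constant
`∏_{p > 2} (1 - 1 / (p - 1) ^ 2)`; `sing m`: the singular series `2 C₂ ∏_{p ∣ m, p > 2} (p - 1) / (p - 2)`.
-/

set_option autoImplicit false

namespace Pool.Agent.Results.MP_33f996_nt.ElementsOfAnySet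

open Finset Pool.Agent.H560R3.GB

/-- The number of the primes `p` with `x < p ≤ y` such that `m - p` is also a prime. -/
def G (m x y : ℕ) : ℕ := ((Ioc x y).filter (fun p => p.Prime ∧ (m - p).Prime)).card

/-- (1) There are different primes `p < q` with `p + q = m` and `√m < p < m / 2`. (2) For every interval
`(x, y]`, `0 ≤ x < y < m / 2`, of length at least `m / log ^ A m`, the number of the primes `p` in `(x, y]` such
that `m - p` is also a prime is `sing m * (y - x) / log ^ 2 m`, up to a relative error of at most `ε`. -/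
def Holds (ε : ℝ) (A m : ℕ) : Prop :=
  (∃ p q : ℕ, p.Prime ∧ q.Prime ∧ p ≠ q ∧ p + q = m ∧ m < p ^ 2 ∧ 2 * p < m) ∧
  ∀ x y : ℕ, 2 * y < m → (m : ℝ) / Real.log m ^ A ≤ (y : ℝ) - x →
    |(G m x y : ℝ) - sing m * ((y : ℝ) - x) / Real.log m ^ 2| ≤ ε * (sing m * ((y : ℝ) - x) / Real.log m ^ 2)

lemma holds_of (A : ℕ) (ε : ℝ) (hε : 0 < ε) : ∃ m₀ : ℕ, ∀ m : ℕ, m₀ ≤ m → 2 ∣ m →
    Pool.Agent.W93.PG.WinP (min ε (1 / 2)) (A + 1) m → Holds ε A m := by
  obtain ⟨m₀, h0⟩ := Pool.Agent.Q145.GB1.core A ε hε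
  refine ⟨m₀, fun m hm h2 hw => ?_⟩
  obtain ⟨⟨p, p1, p2, p3, p4⟩, h1⟩ := h0 m hm h2 hw
  exact ⟨⟨p, m - p, p1, p2, by omega, by omega, p3, p4⟩, fun x y hy hl => h1 x y (by omega) hl⟩

/-- For every `l ≥ 2` and every `A` there is a constant `C` such that for all `B` and `ε > 0` there is an `N₀` with
the following property. Let `W` be an arbitrary set of integers which contains an element of every interval
`[x, l x]`, `x ≥ 1` (the constants `C` and `N₀` do not depend on `W`). Then every even integer `N ≥ N₀` is the sum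
of an integer `m` and of at most `C (log log N) ^ 2` distinct elements of `W` with the following property: the assertion of the
problem holds for `m` (there are different primes `p < q` with `p + q = m` and `√m < p < m / 2`), and the number
of these primes `p` in every interval of length at least `m / log ^ A m` is as predicted, up to a relative error
of at most `ε`; moreover the elements of `W` can be chosen between
`log ^ B N` and `N / log ^ B N`. -/
theorem result (l : ℕ) (hl : 2 ≤ l) (A : ℕ) : ∃ C : ℝ, ∀ (B : ℕ) (ε : ℝ), 0 < ε → ∃ N₀ : ℕ, ∀ W : Set ℕ,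
    (∀ x : ℕ, 1 ≤ x → ∃ a ∈ W, x ≤ a ∧ a ≤ l * x) → ∀ N : ℕ, N₀ ≤ N → Even N →
      ∃ S : Finset ℕ, (∀ a ∈ S, a ∈ W ∧ Real.log N ^ B ≤ a ∧ (a : ℝ) ≤ N / Real.log N ^ B) ∧
        (S.card : ℝ) ≤ C * Real.log (Real.log N) ^ 2 ∧ ∃ m : ℕ, m + ∑ a ∈ S, a = N ∧ Holds ε A m := by
  obtain ⟨C, hC⟩ := Pool.Agent.Y885.las_windows l hl (A + 1)
  refine ⟨C, fun B ε hε => ?_⟩
  obtain ⟨m₀, h0⟩ := holds_of A ε hε
  exact hC B m₀ (min ε (1 / 2)) (lt_min hε (by norm_num : (0 : ℝ) < 1 / 2)) (Holds ε A) h0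

end Pool.Agent.Results.MP_33f996_nt.ElementsOfAnySet
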