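import Pool.Agent.Q145.GB1
import Pool.Agent.Y885.WI4
import Pool.Agent.H560R3.GB.Defs

/-!
# Goldbach partitions into distinct primes which exceed the square root: random sums with up to two fifths of the scales
missing, and prescribed digits

Definitions used (in `Pool.Agent.H560R3.GB`): `C₂`: the twin prime constant
`∏_{p > 2} (1 - 1 / (p - 1) ^ 2)`; `sing m`: the singular series `2 C₂ ∏_{p ∣ m, p > 2} (p - 1) / (p - 2)`.
-/

set_option autoImplicit false

namespace Pool.Agent.Results.MP_33f996_nt.RandomSums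

open Finset Pool.Agent.H560R3.GB

/-- The number of the primes `p` with `x < p ≤ y` such that `m - p` is also a prime. -/
def G (m x y : ℕ) : ℕ := ((Ioc x y).filter (fun p => p.Prime ∧ (m - p).Prime)).card

/-- (1) There are different primes `p < q` with `p + q = m` and `√m < p < m / 2`. (2) For every interval
`(x, y]`, `0 ≤ x < y < m / 2`, of length at least `m / log ^ A m`, the number of the primes `p` in `(x, y]` such
that `m - p` is also a prime is `sing m * (y - x) / log ^ 2 m`, up to a relative error of at most `ε`. -/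
def Holds (ε : ℝ) (A m : ℕ) : Prop :=
  (∃ p q : ℕ, p.Prime ∧ q.Prime ∧ p ≠ q ∧ p + q = m ∧ m < p ^ 2 ∧ 2 * p < m) ∧
  ∀ x y : ℕ, 2 * y < m → (m : ℝ) / Real.log m ^ A ≤ (y : ℝ) - x →
    |(G m x y : ℝ) - sing m * ((y : ℝ) - x) / Real.log m ^ 2| ≤ ε * (sing m * ((y : ℝ) - x) / Real.log m ^ 2)

lemma holds_of (A : ℕ) (ε : ℝ) (hε : 0 < ε) : ∃ m₀ : ℕ, ∀ m : ℕ, m₀ ≤ m → 2 ∣ m →
    Pool.Agent.W93.PG.WinP (min ε (1 / 2)) (A + 1) m → Holds ε A m := by
  obtain ⟨m₀, h0⟩ := Pool.Agent.Q145.GB1.core A ε hε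
  refine ⟨m₀, fun m hm h2 hw => ?_⟩
  obtain ⟨⟨p, p1, p2, p3, p4⟩, h1⟩ := h0 m hm h2 hw
  exact ⟨⟨p, m - p, p1, p2, by omega, by omega, p3, p4⟩, fun x y hy hl => h1 x y (by omega) hl⟩

/-- The set `J` of scales below `k` is rich: it contains more than three fifths of all the scales, more than one half
of the `m` lowest scales, and a positive proportion of the `m` highest scales (the last two conditions are
void for `m ≤ D log k`). -/
structure Rich (δ : ℝ) (D k : ℕ) (J : Finset ℕ) : Prop where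
  lt : ∀ j ∈ J, j < k
  all : (3 / 5 + δ) * k ≤ (J.card : ℝ)
  low : ∀ m ≤ k, (1 / 2 + δ) * m ≤ ((J.filter fun j => j < m).card : ℝ) + D * Real.log k
  high : ∀ m ≤ k, δ * m ≤ ((J.filter fun j => k - m ≤ j).card : ℝ) + D * Real.log k

open Classical in
/-- The probability of the event `E` if `x 0, ..., x (k - 1)` are independent random integers, where `x j` takes
its values in the finite set `s j`, and the value `x` with the probability `p j x`. -/
noncomputable def Prob (k : ℕ) (s : ℕ → Finset ℤ) (p : ℕ → ℤ → ℝ) (E : (Fin k → ℤ) → Prop) : ℝ :=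
  ∑ x ∈ Fintype.piFinset (fun j : Fin k => s j), if E x then ∏ j : Fin k, p j (x j) else 0

open Classical in
/-- Let `b ≥ 2`, `B ≥ 1`, `A`, `D`, `U`, `η > 0`, `δ > 0` and `ε > 0` be fixed, let `k` be large, and let `J` be an
arbitrary rich set of scales below `k`. (1) Let `x 0, ..., x (k - 1)` be arbitrary independent random integers
with `|x j| ≤ B b ^ j` such that, for all `j` in `J`, no interval of the length `b ^ j / B` contains `x j` with a
probability larger than `1 - η` (nothing is assumed for the other `j`: these `x j` may be constants). Let `c` be an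
arbitrary integer with `|c| ≤ B b ^ k`. Then, with a probability of at least `1 - 1 / k ^ U`, the integer
`m = c + x 0 + ... + x (k - 1)` has the following property: if `m` is positive and even, then the assertion of the
problem holds for `m` (there are different primes `p < q` with `p + q = m` and `√m < p < m / 2`), and the number
of these primes `p` in every interval of length at least `m / log ^ A m` is as predicted, up to a relative error
of at most `ε`. (2) Let `S 0, ..., S (k - 1)` be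
arbitrary nonempty sets of digits in base `b`, such that `S j` has at least two elements if `j` is in `J` (the
other digits may be prescribed). Then the same property holds for all the integers `m < b ^ k` whose digit at the
place `j` belongs to `S j` for all `j < k`, with at most `(#S 0 ⋯ #S (k - 1)) / k ^ U` exceptions. -/
theorem result (b B A D U : ℕ) (hb : 2 ≤ b) (hB : 1 ≤ B) (η δ ε : ℝ) (hη : 0 < η) (hδ : 0 < δ) (hε : 0 < ε) :
    ∃ k₀ : ℕ, ∀ k : ℕ, k₀ ≤ k → ∀ J : Finset ℕ, Rich δ D k J →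
      (∀ (s : ℕ → Finset ℤ) (p : ℕ → ℤ → ℝ),
        (∀ j < k, (∀ x ∈ s j, 0 ≤ p j x ∧ |x| ≤ (B : ℤ) * (b : ℤ) ^ j) ∧ ∑ x ∈ s j, p j x = 1) →
        (∀ j ∈ J, ∀ y : ℤ, ∑ x ∈ (s j).filter (fun x => y ≤ x ∧ (B : ℤ) * (x - y) ≤ (b : ℤ) ^ j), p j x ≤ 1 - η) →
        ∀ c : ℤ, |c| ≤ (B : ℤ) * (b : ℤ) ^ k →
          Prob k s p (fun x => 0 < c + ∑ j, x j ∧ Even (c + ∑ j, x j) ∧ ¬ Holds ε A (c + ∑ j, x j).toNat) ≤
            1 / (k : ℝ) ^ U) ∧
      (∀ S : ℕ → Finset ℕ, (∀ j < k, (S j).Nonempty ∧ ∀ a ∈ S j, a < b) → (∀ j ∈ J, 2 ≤ (S j).card) →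
        (((range (b ^ k)).filter fun m =>
            (∀ j < k, m / b ^ j % b ∈ S j) ∧ 0 < m ∧ Even m ∧ ¬ Holds ε A m).card : ℝ) ≤
          (∏ j ∈ range k, ((S j).card : ℝ)) / (k : ℝ) ^ U) := by
  obtain ⟨m₀, h0⟩ := holds_of A ε hε
  obtain ⟨k₀, h1⟩ := Pool.Agent.Y885.rs_both b B D (A + 1) U m₀ hb hB η δ (min ε (1 / 2)) hη hδ
    (lt_min hε (by norm_num : (0 : ℝ) < 1 / 2)) (Holds ε A) h0
  refine ⟨k₀, fun k hk J hJ => ?_⟩
  obtain ⟨h2, h3⟩ := h1 k hk J ⟨hJ.lt, hJ.low, hJ.high, hJ.all⟩
  refine ⟨fun s p hs hp c hc => ?_, h3⟩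
  refine le_trans (le_of_eq ?_) (h2 s p hs hp c hc)
  unfold Prob
  apply sum_congr rfl
  intro x _
  split_ifs <;> rfl

end Pool.Agent.Results.MP_33f996_nt.RandomSums
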